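import Pool.Agent.H53.GR.Targets

/-!
# The theorem of Nešetřil and Rödl for a list of structures, row NRI
-/

set_option autoImplicit false

namespace Pool.Agent.H24.GR.NRI

open Pool.Agent.H68.BP Pool.Agent.H58.SF Pool.Agent.H58.GR Pool.Agent.H53.GC
open Pool.Agent.H53.GR

private theorem OCopy_comp {τ : Sig} {a b n : ℕ} {𝔸 : Str τ (Fin a)} {𝕏 : Str τ (Fin b)}
    {𝕌 : Str τ (Fin n)} {f : Fin a → Fin b} {φ : Fin b → Fin n}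
    (hf : OCopy 𝔸 𝕏 f) (hφ : OCopy 𝕏 𝕌 φ) : OCopy 𝔸 𝕌 (fun i => φ (f i)) := by
  refine ⟨hφ.1.comp hf.1, ?_⟩
  rw [← hf.2, ← hφ.2]
  rfl

theorem pf_NRI (h : T_NR2) : T_NRI := by
  intro τ V κ _ _ 𝔹 M l
  induction l with
  | nil =>
    intro b 𝕏 har hX
    refine ⟨b, 𝕏, hX, fun χ => ⟨id, ⟨strictMono_id, rfl⟩, ?_⟩⟩
    intro p hp
    exact absurd hp List.not_mem_nil
  | cons p l ih =>
    intro b 𝕏 har hX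
    obtain ⟨n₁, 𝕌₁, hU₁, h₁⟩ := ih b 𝕏 har hX
    obtain ⟨n₂, 𝕌₂, hU₂, h₂⟩ := h τ V κ 𝔹 M p.1 n₁ p.2 𝕌₁ har hU₁
    refine ⟨n₂, 𝕌₂, hU₂, fun χ => ?_⟩
    obtain ⟨φ₁, hφ₁, hp₁⟩ := h₂ (χ p.1)
    obtain ⟨φ₀, hφ₀, hp₀⟩ := h₁ (fun a f => χ a (fun i => φ₁ (f i)))
    refine ⟨fun i => φ₁ (φ₀ i), OCopy_comp hφ₀ hφ₁, ?_⟩
    intro q hq f f' hf hf'
    rcases List.mem_cons.mp hq with rfl | hq
    · exact hp₁ _ _ (OCopy_comp hf hφ₀) (OCopy_comp hf' hφ₀)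
    · exact hp₀ q hq f f' hf hf'

end Pool.Agent.H24.GR.NRI
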